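import Pool.Agent.Q189.IB.Stm3

set_option autoImplicit false

/-!
# Project IB (helper189), job PROD: a product of Gamma values as a product of powers of beta values
-/

namespace Pool.Agent.Q223.IB

open Pool.Agent.Q189.IB

open Classical in
/-- the factor belonging to `j` -/
noncomputable def GG {k : ℕ} (a : Fin (k + 1) → ℚ) (j : Fin k) : ℝ :=
  if Int.fract (a j.castSucc) ≠ 0 ∧ Int.fract (tail a j) ≠ 0 then
    inc ((Int.fract (a j.castSucc) : ℚ) : ℝ) ((Int.fract (tail a j) : ℚ) : ℝ) 1 else 1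

theorem tail_pos {k : ℕ} (a : Fin (k + 1) → ℚ) (ha : ∀ j, 0 < a j) (j : Fin k) : 0 < tail a j := by
  unfold tail
  apply Finset.sum_pos'
  · intro i _
    split_ifs
    · exact (ha i).le
    · exact le_rfl
  · refine ⟨Fin.last k, Finset.mem_univ _, ?_⟩
    rw [if_pos (Fin.castSucc_lt_last j)]
    exact ha _

theorem fact (h2 : S_RED) {k : ℕ} (a : Fin (k + 1) → ℚ) (ha : ∀ j, 0 < a j) (j : Fin k) :
    ∃ q : ℚ, 0 < q ∧ inc ((a j.castSucc : ℚ) : ℝ) ((tail a j : ℚ) : ℝ) 1 = q * GG a j := by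
  by_cases h : Int.fract (a j.castSucc) ≠ 0 ∧ Int.fract (tail a j) ≠ 0
  · unfold GG
    rw [if_pos h]
    apply h2.2 _ _ (ha _) (tail_pos a ha j)
    · rintro z hz
      apply h.1
      rw [hz, Int.fract_intCast]
    · rintro z hz
      apply h.2
      rw [hz, Int.fract_intCast]
  · unfold GG
    rw [if_neg h]
    have h3 : (∃ z : ℤ, a j.castSucc = z) ∨ ∃ z : ℤ, tail a j = z := by
      rw [not_and_or, not_not, not_not] at h
      rcases h with h | h
      · left
        refine ⟨⌊a j.castSucc⌋, ?_⟩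
        have := Int.floor_add_fract (a j.castSucc)
        rw [h, add_zero] at this
        exact this.symm
      · right
        refine ⟨⌊tail a j⌋, ?_⟩
        have := Int.floor_add_fract (tail a j)
        rw [h, add_zero] at this
        exact this.symm
    obtain ⟨q, hq, he⟩ := h2.1 _ _ (ha j.castSucc) (tail_pos a ha j) h3
    exact ⟨q, hq, by rw [he, mul_one]⟩

open Classical in
theorem prod_GG {k : ℕ} (a : Fin (k + 1) → ℚ) {s : ℕ} (u v : Fin s → ℚ) (m : Fin s → ℕ)
    (hE : Enum a u v m) : ∏ c, inc (u c : ℝ) (v c : ℝ) 1 ^ m c = ∏ j, GG a j := by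
  have h1 : ∀ c, inc (u c : ℝ) (v c : ℝ) 1 ^ m c =
      ∏ j : Fin k, if Int.fract (a j.castSucc) = u c ∧ Int.fract (tail a j) = v c then
        inc ((Int.fract (a j.castSucc) : ℚ) : ℝ) ((Int.fract (tail a j) : ℚ) : ℝ) 1 else 1 := by
    intro c
    rw [← Finset.prod_filter]
    have h2 : ∏ j ∈ Finset.univ.filter (fun j : Fin k => Int.fract (a j.castSucc) = u c ∧
        Int.fract (tail a j) = v c),
        inc ((Int.fract (a j.castSucc) : ℚ) : ℝ) ((Int.fract (tail a j) : ℚ) : ℝ) 1 =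
        ∏ j ∈ Finset.univ.filter (fun j : Fin k => Int.fract (a j.castSucc) = u c ∧
        Int.fract (tail a j) = v c), inc (u c : ℝ) (v c : ℝ) 1 := by
      refine Finset.prod_congr rfl fun j hj => ?_
      rw [Finset.mem_filter] at hj
      rw [hj.2.1, hj.2.2]
    rw [h2, Finset.prod_const, hE.card c]
  rw [Finset.prod_congr rfl fun c _ => h1 c, Finset.prod_comm]
  refine Finset.prod_congr rfl fun j _ => ?_
  unfold GG
  split_ifs with h
  · obtain ⟨c, hc1, hc2⟩ := hE.all j h.1 h.2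
    rw [Finset.prod_eq_single c]
    · rw [if_pos ⟨hc1, hc2⟩]
    · intro c' _ hcc
      rw [if_neg]
      rintro ⟨e1, e2⟩
      exact hcc (hE.inj _ _ (e1.symm.trans hc1) (e2.symm.trans hc2))
    · intro hc
      exact absurd (Finset.mem_univ _) hc
  · apply Finset.prod_eq_one
    intro c _
    rw [if_neg]
    rintro ⟨e1, e2⟩
    apply h
    rw [e1, e2]
    exact hE.ne c

theorem t_PROD (h1 : S_GAM) (h2 : S_RED) : S_PROD := by
  intro k a ha s u v m hE
  have h3 := fun j => fact h2 a ha j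
  choose q hq0 hq using h3
  refine ⟨∏ j, q j, Finset.prod_pos fun j _ => hq0 j, ?_⟩
  have h4 := h1.1 k (fun j => ((a j : ℚ) : ℝ)) (fun j => by exact_mod_cast ha j)
  rw [h4, prod_GG a u v m hE]
  push_cast
  rw [← Finset.prod_mul_distrib]
  congr 1
  refine Finset.prod_congr rfl fun j _ => ?_
  rw [← hq j]
  congr 1
  unfold tail
  push_cast
  refine Finset.sum_congr rfl fun i _ => ?_
  split_ifs <;> simp

end Pool.Agent.Q223.IB
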